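import Pool.Agent.H72.KJ.J5S

/-!
# LEMMA J, row J5: the list of the rows from the near roots
-/

set_option autoImplicit false

namespace Pool.Agent.H32.KJ

open Finset
open Pool.KJ Pool.KAL Pool.KST Pool.KS3

variable {n : ℕ}

/-- The polynomial in the passive coordinate over the base point `u`. -/
noncomputable def sl (P : MvPolynomial (Option (Fin n)) ℝ) (u : Fin n → ℝ) : Polynomial ℝ :=
  MvPolynomial.aeval (fun o : Option (Fin n) => o.elim Polynomial.X fun i => Polynomial.C (u i)) P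

lemma eval_sl (P : MvPolynomial (Option (Fin n)) ℝ) (u : Fin n → ℝ) (t : ℝ) :
    (sl P u).eval t = MvPolynomial.eval (fun o : Option (Fin n) => o.elim t u) P := by
  unfold sl
  induction P using MvPolynomial.induction_on with
  | C a =>
    rw [MvPolynomial.aeval_C, MvPolynomial.eval_C]
    exact Polynomial.eval_C
  | add p q hp hq => rw [map_add, Polynomial.eval_add, hp, hq, map_add]
  | mul_X p o hp =>
    rw [map_mul, Polynomial.eval_mul, hp, map_mul, MvPolynomial.aeval_X, MvPolynomial.eval_X]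
    congr 1
    cases o with
    | none => exact Polynomial.eval_X
    | some i => exact Polynomial.eval_C

lemma derivative_sl (P : MvPolynomial (Option (Fin n)) ℝ) (u : Fin n → ℝ) :
    Polynomial.derivative (sl P u) = sl (MvPolynomial.pderiv none P) u := by
  unfold sl
  induction P using MvPolynomial.induction_on with
  | C a =>
    rw [MvPolynomial.aeval_C, MvPolynomial.pderiv_C, map_zero]
    exact Polynomial.derivative_C
  | add p q hp hq => rw [map_add, Polynomial.derivative_add, hp, hq, map_add, map_add]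
  | mul_X p o hp =>
    rw [map_mul, Polynomial.derivative_mul, hp, Derivation.leibniz, MvPolynomial.aeval_X,
      map_add, smul_eq_mul, smul_eq_mul, map_mul, map_mul, MvPolynomial.aeval_X,
      MvPolynomial.pderiv_X]
    cases o with
    | none =>
      have h1 : Polynomial.derivative ((none : Option (Fin n)).elim Polynomial.X
          fun i => Polynomial.C (u i)) = 1 := Polynomial.derivative_X
      rw [h1, Pi.single_eq_same, map_one]
      ring
    | some i =>
      have h1 : Polynomial.derivative ((some i : Option (Fin n)).elim Polynomial.X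
          fun i => Polynomial.C (u i)) = 0 := Polynomial.derivative_C
      rw [h1, Pi.single_eq_of_ne (by simp), map_zero]
      ring

lemma iterate_sl (j : ℕ) (P : MvPolynomial (Option (Fin n)) ℝ) (u : Fin n → ℝ) :
    Polynomial.derivative^[j] (sl P u) = sl (dN j P) u := by
  induction j with
  | zero => rfl
  | succ j ih => rw [Function.iterate_succ_apply', ih, derivative_sl, dN_succ']

lemma natDegree_sl (P : MvPolynomial (Option (Fin n)) ℝ) (u : Fin n → ℝ) (D : ℕ)
    (hP : P.totalDegree ≤ D) : (sl P u).natDegree ≤ D := by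
  refine le_trans ?_ hP
  unfold sl
  rw [MvPolynomial.aeval_def, MvPolynomial.eval₂_eq]
  refine Polynomial.natDegree_sum_le_of_forall_le _ _ fun d hd => ?_
  have h0 : (algebraMap ℝ (Polynomial ℝ)) (MvPolynomial.coeff d P) =
      Polynomial.C (MvPolynomial.coeff d P) := rfl
  rw [h0]
  refine (Polynomial.natDegree_C_mul_le _ _).trans ?_
  refine (Polynomial.natDegree_prod_le _ _).trans ?_
  refine le_trans (Finset.sum_le_sum (g := fun o => d o) fun o _ => ?_)
    (MvPolynomial.le_totalDegree hd)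
  refine (Polynomial.natDegree_pow_le).trans ?_
  cases o with
  | none =>
    have h1 : ((none : Option (Fin n)).elim Polynomial.X
        fun i => Polynomial.C (u i) : Polynomial ℝ).natDegree ≤ 1 := Polynomial.natDegree_X_le
    calc d none * _ ≤ d none * 1 := Nat.mul_le_mul_left _ h1
      _ = d none := Nat.mul_one _
  | some i =>
    have h1 : ((some i : Option (Fin n)).elim Polynomial.X
        fun i => Polynomial.C (u i) : Polynomial ℝ).natDegree = 0 := Polynomial.natDegree_C _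
    rw [h1, Nat.mul_zero]
    exact Nat.zero_le _

lemma dN_C_mul (j : ℕ) (r : ℝ) (P : MvPolynomial (Option (Fin n)) ℝ) :
    dN j (MvPolynomial.C r * P) = MvPolynomial.C r * dN j P := by
  induction j with
  | zero => rfl
  | succ j ih =>
    rw [dN_succ', ih, dN_succ', MvPolynomial.pderiv_C_mul]

lemma dN_shf' (j : ℕ) (P : MvPolynomial (Option (Fin n)) ℝ) (h : ℝ) (x : Option (Fin n) → ℝ) :
    dN j (shf P h x) = MvPolynomial.C (h ^ j) * shf (dN j P) h x := by
  induction j with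
  | zero =>
    rw [pow_zero, MvPolynomial.C_1, one_mul]
    rfl
  | succ j ih =>
    rw [dN_succ', ih, MvPolynomial.pderiv_C_mul, pderiv_shf, dN_succ', pow_succ,
      MvPolynomial.C_mul]
    ring

/-- The value of `hpl`. -/
lemma eval_hpl {Z : Type} (a : ℕ) (cz : Z → Option (Fin n) → ℕ) (G : Z → MvPolynomial (Fin n) ℝ)
    (Q : Z → MvPolynomial (Option (Fin n)) ℝ) (ζ₁ ζ₂ : Z) (j : ℕ) (y : Fin n → ℝ) :
    MvPolynomial.eval y (hpl a cz G Q ζ₁ ζ₂ j) = (1 / 2 ^ a) ^ j *
      (Polynomial.derivative^[j] (sl (Q ζ₁)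
        (fun i => (cz ζ₂ (some i) : ℝ) / 2 ^ a + 1 / 2 ^ a * y i))).eval
        ((cz ζ₂ none : ℝ) / 2 ^ a + 1 / 2 ^ a * MvPolynomial.eval y (G ζ₂)) := by
  unfold hpl lfp
  rw [eval_gr, dN_shf', map_mul, MvPolynomial.eval_C, eval_shf, iterate_sl, eval_sl]
  congr 1
  refine congrArg (fun v => MvPolynomial.eval v (dN j (Q ζ₁))) ?_
  funext o
  cases o with
  | none => rfl
  | some i => rfl

open Classical in
/-- The naturals near a real number. -/
noncomputable def nr (c r : ℝ) : Finset ℕ :=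
  (Finset.Icc ⌈c - r⌉ ⌊c + r⌋).image Int.toNat

lemma nr_card (c r : ℝ) (hr : 0 ≤ r) : ((nr c r).card : ℝ) ≤ 2 * r + 1 := by
  classical
  unfold nr
  have h1 : (((Finset.Icc ⌈c - r⌉ ⌊c + r⌋).image Int.toNat).card : ℝ) ≤
      ((Finset.Icc ⌈c - r⌉ ⌊c + r⌋).card : ℝ) := by
    exact_mod_cast Finset.card_image_le
  refine h1.trans ?_
  rw [Int.card_Icc]
  have h2 : ((⌊c + r⌋ + 1 - ⌈c - r⌉).toNat : ℝ) = max (⌊c + r⌋ + 1 - ⌈c - r⌉ : ℝ) 0 := by
    have : (((⌊c + r⌋ + 1 - ⌈c - r⌉).toNat : ℤ) : ℝ) = ((max (⌊c + r⌋ + 1 - ⌈c - r⌉) 0 : ℤ) : ℝ) := by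
      rw [Int.toNat_eq_max]
    rw [← Int.cast_natCast, this]
    push_cast
    rfl
  rw [h2]
  have h3 := Int.floor_le (c + r)
  have h4 := Int.le_ceil (c - r)
  refine max_le (by linarith only [h3, h4]) (by linarith only [hr])

lemma mem_nr {c r : ℝ} {m : ℕ} (h : |(m : ℝ) - c| ≤ r) : m ∈ nr c r := by
  classical
  unfold nr
  rw [Finset.mem_image]
  rw [abs_le] at h
  refine ⟨(m : ℤ), ?_, Int.toNat_natCast m⟩
  rw [Finset.mem_Icc, Int.ceil_le, Int.le_floor]
  push_cast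
  constructor <;> linarith only [h, h.1, h.2]

open Classical in
/-- The list: the rows near the real parts of the roots. -/
noncomputable def lst (a L R D : ℕ) (r : ℝ) (Q : MvPolynomial (Option (Fin n)) ℝ)
    (u : Fin n → ℕ) : Finset ℕ :=
  if Q.totalDegree ≤ D then
    (((sl Q fun i => (u i : ℝ) / 2 ^ (a + L)).map (algebraMap ℝ ℂ)).roots.toFinset).biUnion
      fun z => nr (2 ^ (R + a) * z.re) r
  else ∅

lemma lst_card (a L R D : ℕ) (r : ℝ) (hr : 0 ≤ r) (Q : MvPolynomial (Option (Fin n)) ℝ)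
    (u : Fin n → ℕ) : ((lst a L R D r Q u).card : ℝ) ≤ D * (2 * r + 1) := by
  classical
  unfold lst
  split_ifs with hD
  · refine le_trans (Nat.cast_le.2 Finset.card_biUnion_le) ?_
    rw [Nat.cast_sum]
    refine (Finset.sum_le_card_nsmul _ _ (2 * r + 1) fun z _ => nr_card _ _ hr).trans ?_
    rw [nsmul_eq_mul]
    refine mul_le_mul_of_nonneg_right ?_ (by linarith only [hr])
    have h1 : (((sl Q fun i => (u i : ℝ) / 2 ^ (a + L)).map (algebraMap ℝ ℂ)).roots.toFinset).card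
        ≤ D := by
      refine (Multiset.toFinset_card_le _).trans ?_
      refine (Polynomial.card_roots' _).trans ?_
      exact (Polynomial.natDegree_map_le).trans (natDegree_sl Q _ D hD)
    exact_mod_cast h1
  · rw [Finset.card_empty, Nat.cast_zero]
    positivity

theorem rts_thm (hN : NEAStmt) : RTSStmt := by
  intro n D C₀ hC₀
  obtain ⟨C, hC, H⟩ := hN D
  refine ⟨D * (2 * (C + 3 * C₀ + 1) + 1) + 1, ?_, ?_⟩
  · have : (0 : ℝ) ≤ D * (2 * (C + 3 * C₀ + 1) + 1) := by positivity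
    linarith only [this]
  intro a L R θ hRL hθ hθ1
  refine ⟨lst a L R D ((C + 3 * C₀) / θ + 1), ?_, ?_⟩
  · intro Q u
    refine (lst_card a L R D _ (by positivity) Q u).trans ?_
    rw [le_div_iff₀ hθ]
    have h1 : (2 * ((C + 3 * C₀) / θ + 1) + 1) * θ = 2 * (C + 3 * C₀) + 3 * θ := by
      field_simp
      ring
    rw [mul_assoc, h1]
    have h2 : (2 * (C + 3 * C₀) + 3 * θ : ℝ) ≤ 2 * (C + 3 * C₀ + 1) + 1 := by linarith only [hθ1]
    have h3 := mul_le_mul_of_nonneg_left h2 (Nat.cast_nonneg D : (0 : ℝ) ≤ D)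
    linarith only [h3]
  intro Z Q G cz ζ₁ ζ₂ ps y j M₀ Mj hQ hps hy hG hj hjD hMj hθj hM₀ hR
  have hpsR : ∀ o, (ps o : ℝ) = cz ζ₂ o * 2 ^ L + ((ps o % 2 ^ L : ℕ) : ℝ) := by
    intro o
    have h1 := Nat.div_add_mod (ps o) (2 ^ L)
    rw [hps o] at h1
    have h2 : ((2 ^ L * cz ζ₂ o + ps o % 2 ^ L : ℕ) : ℝ) = ps o := by rw [h1]
    rw [← h2]
    push_cast
    ring
  obtain ⟨q, hq⟩ : ∃ q, q = sl (Q ζ₁) (fun i => (ps (some i) : ℝ) / 2 ^ (a + L)) := ⟨_, rfl⟩
  obtain ⟨N, hNe⟩ : ∃ N, N = (cz ζ₂ none : ℝ) / 2 ^ a + 1 / 2 ^ a * MvPolynomial.eval y (G ζ₂) :=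
    ⟨_, rfl⟩
  have hu : (fun i => (cz ζ₂ (some i) : ℝ) / 2 ^ a + 1 / 2 ^ a * y i) =
      fun i => (ps (some i) : ℝ) / 2 ^ (a + L) := by
    funext i
    rw [hy i, hpsR (some i), pow_add]
    field_simp
  have e0 := eval_hpl a cz G Q ζ₁ ζ₂ 0 y
  have ej := eval_hpl a cz G Q ζ₁ ζ₂ j y
  rw [hu, ← hq, ← hNe] at e0 ej
  rw [pow_zero, one_mul, Function.iterate_zero, id_eq] at e0
  rw [e0] at hM₀
  rw [ej, abs_mul, abs_of_nonneg (by positivity)] at hθj
  have hq0 : q ≠ 0 := by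
    intro h0
    have h1 : Polynomial.derivative^[j] (0 : Polynomial ℝ) = 0 :=
      Polynomial.iterate_derivative_zero
    rw [h0, h1, Polynomial.eval_zero, abs_zero, mul_zero] at hθj
    have := mul_pos hθ hMj
    linarith only [hθj, this]
  have hqd : q.natDegree ≤ D := by
    rw [hq]
    exact natDegree_sl _ _ D hQ
  obtain ⟨ε, hε⟩ : ∃ ε : ℝ, ε = 1 / (θ * 2 ^ (R + a)) := ⟨_, rfl⟩
  have hε0 : 0 < ε := by rw [hε]; positivity
  have h1 : |q.eval N| ≤ ε ^ j * |(Polynomial.derivative^[j] q).eval N| := by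
    refine hM₀.trans ?_
    obtain ⟨X, hX⟩ : ∃ X : ℝ, X = |(Polynomial.derivative^[j] q).eval N| := ⟨_, rfl⟩
    rw [← hX] at hθj ⊢
    have hX0 : 0 ≤ X := by rw [hX]; exact abs_nonneg _
    have h2 : θ * (2 ^ (R * j) * M₀) ≤ (1 / 2 ^ a) ^ j * X :=
      (mul_le_mul_of_nonneg_left hR hθ.le).trans hθj
    have h3 : θ ^ j ≤ θ := pow_le_of_le_one hθ.le hθ1 (by omega)
    have e1 : ε ^ j * X = (1 / 2 ^ a) ^ j * X / (θ ^ j * 2 ^ (R * j)) := by
      rw [hε, div_pow, one_pow, mul_pow, pow_add, mul_pow, ← pow_mul, div_pow, one_pow]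
      field_simp
    rw [e1, le_div_iff₀ (by positivity)]
    have hM₀0 : 0 ≤ M₀ := (abs_nonneg _).trans hM₀
    have h4 : M₀ * (θ ^ j * 2 ^ (R * j)) ≤ M₀ * (θ * 2 ^ (R * j)) :=
      mul_le_mul_of_nonneg_left (mul_le_mul_of_nonneg_right h3 (by positivity)) hM₀0
    linarith only [h2, h4]
  obtain ⟨z, hz, hNz⟩ := H q N ε j hqd hj hjD hε0 h1 hq0
  classical
  unfold lst
  rw [if_pos hQ, Finset.mem_biUnion]
  refine ⟨z, ?_, ?_⟩
  · rw [Multiset.mem_toFinset, ← hq]
    exact hz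
  refine mem_nr ?_
  -- the distance
  have hd : ps none / 2 ^ (L - R) * 2 ^ (L - R) ≤ ps none := Nat.div_mul_le_self _ _
  have hd' : ps none < (ps none / 2 ^ (L - R) + 1) * 2 ^ (L - R) := by
    have h2 := Nat.div_add_mod (ps none) (2 ^ (L - R))
    have h3 := Nat.mod_lt (ps none) (show 0 < 2 ^ (L - R) by positivity)
    rw [Nat.add_mul, one_mul]
    have h4 : ps none / 2 ^ (L - R) * 2 ^ (L - R) = 2 ^ (L - R) * (ps none / 2 ^ (L - R)) :=
      Nat.mul_comm _ _
    omega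
  obtain ⟨m, hm⟩ : ∃ m, m = ps none / 2 ^ (L - R) := ⟨_, rfl⟩
  rw [← hm] at hd hd' ⊢
  have hdr : (m : ℝ) * 2 ^ (L - R) ≤ ps none := by exact_mod_cast hd
  have hdr' : (ps none : ℝ) ≤ (m + 1) * 2 ^ (L - R) := by exact_mod_cast hd'.le
  have eL : (2 : ℝ) ^ L = 2 ^ R * 2 ^ (L - R) := by
    rw [← pow_add]
    congr 1
    omega
  have k1 : |(m : ℝ) - (ps none : ℝ) / 2 ^ (L - R)| ≤ 1 := by
    have h2 : (m : ℝ) ≤ (ps none : ℝ) / 2 ^ (L - R) := by
      rw [le_div_iff₀ (by positivity)]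
      exact hdr
    have h3 : (ps none : ℝ) / 2 ^ (L - R) ≤ m + 1 := by
      rw [div_le_iff₀ (by positivity)]
      exact hdr'
    rw [abs_le]
    constructor <;> linarith
  have k2 : |(ps none : ℝ) / 2 ^ (L - R) - 2 ^ (R + a) * N| ≤ 3 * C₀ := by
    have e1 : (ps none : ℝ) / 2 ^ (L - R) - 2 ^ (R + a) * N =
        2 ^ R * (((ps none % 2 ^ L : ℕ) : ℝ) / 2 ^ L - MvPolynomial.eval y (G ζ₂)) := by
      rw [hNe, hpsR none, pow_add, eL]
      field_simp
      ring
    rw [e1, abs_mul, abs_of_pos (show (0 : ℝ) < 2 ^ R by positivity)]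
    calc (2 : ℝ) ^ R * _ ≤ 2 ^ R * (3 * C₀ / 2 ^ L) :=
          mul_le_mul_of_nonneg_left hG (by positivity)
      _ = 3 * C₀ / 2 ^ (L - R) := by
          rw [eL]
          field_simp
      _ ≤ 3 * C₀ := div_le_self (by positivity) (one_le_pow₀ one_le_two)
  have k3 : |2 ^ (R + a) * N - 2 ^ (R + a) * z.re| ≤ C / θ := by
    rw [← mul_sub, abs_mul, abs_of_pos (show (0 : ℝ) < 2 ^ (R + a) by positivity)]
    calc (2 : ℝ) ^ (R + a) * _ ≤ 2 ^ (R + a) * (C * ε) :=
          mul_le_mul_of_nonneg_left hNz (by positivity)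
      _ = C / θ := by
          rw [hε]
          field_simp
  have k4 : 3 * C₀ ≤ 3 * C₀ / θ := by
    rw [le_div_iff₀ hθ]
    have : 0 ≤ 3 * C₀ := by positivity
    nlinarith only [hθ1, hC₀]
  rw [add_div]
  rw [abs_le] at k1 k2 k3 ⊢
  constructor <;> linarith only [k1, k2, k3, k4, k1.1, k1.2, k2.1, k2.2, k3.1, k3.2]

end Pool.Agent.H32.KJ
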